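import Pool.Agent.Helper61.CAR.GoalsQ

/-! Packet CAR-WB (MP_d97caa_an): window sums. -/

set_option autoImplicit false

namespace Pool.Agent.Helper56.CAR

open Pool.Agent.Helper61.CAR Pool.Agent.Helper34.CAR
open scoped ComplexOrder InnerProductSpace

theorem wb : S_WB := by
  intro H _ _ _ n C a c hc hC hsum ha
  have key : ∀ x y : H, ‖⟪y, (∑ i, C i * a i * C i) x⟫_ℂ‖ ≤ c * ‖y‖ * ‖x‖ := by
    intro x y
    have h1 : (∑ i, C i * a i * C i) x = ∑ i, C i (a i (C i x)) := by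
      rw [ContinuousLinearMap.sum_apply]
      rfl
    rw [h1, inner_sum]
    have h2 : ∀ i, ⟪y, C i (a i (C i x))⟫_ℂ = ⟪C i y, a i (C i x)⟫_ℂ := by
      intro i
      have h3 := ContinuousLinearMap.adjoint_inner_left (C i) (a i (C i x)) y
      rw [← ContinuousLinearMap.star_eq_adjoint, hC i] at h3
      exact h3.symm
    have h4 : ∀ i, ‖⟪y, C i (a i (C i x))⟫_ℂ‖ ≤ c * (‖C i y‖ * ‖C i x‖) := by
      intro i
      rw [h2 i]
      calc ‖⟪C i y, a i (C i x)⟫_ℂ‖ ≤ ‖C i y‖ * ‖a i (C i x)‖ := norm_inner_le_norm _ _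
        _ ≤ ‖C i y‖ * (c * ‖C i x‖) := by
            apply mul_le_mul_of_nonneg_left _ (norm_nonneg _)
            exact (ContinuousLinearMap.le_opNorm _ _).trans
              (mul_le_mul_of_nonneg_right (ha i) (norm_nonneg _))
        _ = c * (‖C i y‖ * ‖C i x‖) := by ring
    calc ‖∑ i, ⟪y, C i (a i (C i x))⟫_ℂ‖ ≤ ∑ i, ‖⟪y, C i (a i (C i x))⟫_ℂ‖ := norm_sum_le _ _
      _ ≤ ∑ i, c * (‖C i y‖ * ‖C i x‖) := Finset.sum_le_sum fun i _ => h4 i
      _ = c * ∑ i, ‖C i y‖ * ‖C i x‖ := by rw [Finset.mul_sum]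
      _ ≤ c * (‖y‖ * ‖x‖) := by
          apply mul_le_mul_of_nonneg_left _ hc
          have h5 := Finset.sum_mul_sq_le_sq_mul_sq Finset.univ (fun i => ‖C i y‖)
            (fun i => ‖C i x‖)
          have h6 : (∑ i, ‖C i y‖ * ‖C i x‖) ^ 2 ≤ (‖y‖ * ‖x‖) ^ 2 := by
            rw [mul_pow]
            exact h5.trans (mul_le_mul (hsum y) (hsum x)
              (Finset.sum_nonneg fun i _ => sq_nonneg _) (sq_nonneg _))
          exact le_of_sq_le_sq h6 (mul_nonneg (norm_nonneg _) (norm_nonneg _))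
      _ = c * ‖y‖ * ‖x‖ := by ring
  apply ContinuousLinearMap.opNorm_le_bound _ hc
  intro x
  by_cases h0 : (∑ i, C i * a i * C i) x = 0
  · rw [h0, norm_zero]
    exact mul_nonneg hc (norm_nonneg _)
  · have h1 := key x ((∑ i, C i * a i * C i) x)
    have hpos : 0 < ‖(∑ i, C i * a i * C i) x‖ := norm_pos_iff.2 h0
    have h2 : ‖⟪(∑ i, C i * a i * C i) x, (∑ i, C i * a i * C i) x⟫_ℂ‖ =
        ‖(∑ i, C i * a i * C i) x‖ * ‖(∑ i, C i * a i * C i) x‖ := by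
      rw [inner_self_eq_norm_sq_to_K, norm_pow, RCLike.norm_ofReal, abs_norm, sq]
    rw [h2] at h1
    have h3 : ‖(∑ i, C i * a i * C i) x‖ * ‖(∑ i, C i * a i * C i) x‖ ≤
        ‖(∑ i, C i * a i * C i) x‖ * (c * ‖x‖) := by
      calc _ ≤ c * ‖(∑ i, C i * a i * C i) x‖ * ‖x‖ := h1
        _ = _ := by ring
    exact le_of_mul_le_mul_left h3 hpos

end Pool.Agent.Helper56.CAR
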