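import Pool.Agent.Helper34.CAR.GoalsB

/-! Packet CAR-FIX (MP_d97caa_an): the fixed points of the circle action. -/

set_option autoImplicit false

open scoped ComplexOrder ZeroAtInfty

namespace Pool.Agent.Helper56.CAR

open Pool.Agent.Helper34.CAR Pool.Agent.Helper39.Uct

/-- A geometric sum over the powers of a root of unity. -/
theorem sum_root {N : ℕ} {ζ : Circle} (hζ : IsPrimitiveRoot ((ζ : Circle) : ℂ) N) {p q : ℕ}
    (hp : p < N) (hq : q < N) (hpq : p ≠ q) :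
    ∑ k ∈ Finset.range N,
      ((((ζ ^ k : Circle) : ℂ)) ^ p * star ((((ζ ^ k : Circle) : ℂ)) ^ q)) = 0 := by
  set w : ℂ := (ζ : ℂ) ^ p * star ((ζ : ℂ) ^ q) with hw
  have h1 : ∀ k ∈ Finset.range N,
      ((((ζ ^ k : Circle) : ℂ)) ^ p * star ((((ζ ^ k : Circle) : ℂ)) ^ q)) = w ^ k := by
    intro k _
    rw [hw, Circle.coe_pow, mul_pow, ← star_pow, ← pow_mul, ← pow_mul, ← pow_mul, ← pow_mul,
      mul_comm k p, mul_comm k q]
  rw [Finset.sum_congr rfl h1]
  have hone : star ((ζ : ℂ) ^ q) * (ζ : ℂ) ^ q = 1 := by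
    have h2 : star (ζ : ℂ) * (ζ : ℂ) = 1 := by
      have h3 : (ζ : ℂ) * (starRingEnd ℂ) (ζ : ℂ) = 1 := by
        rw [Complex.mul_conj, Circle.normSq_coe]
        simp
      rw [mul_comm]
      exact h3
    rw [star_pow, ← mul_pow, h2, one_pow]
  have hw1 : w ≠ 1 := by
    intro h
    apply hpq
    apply hζ.pow_inj hp hq
    have h2 : w * (ζ : ℂ) ^ q = (ζ : ℂ) ^ p := by
      rw [hw, mul_assoc, hone, mul_one]
    rw [← h2, h, one_mul]
  have hwN : w ^ N = 1 := by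
    rw [hw, mul_pow, ← star_pow, ← pow_mul, ← pow_mul, mul_comm p N, mul_comm q N, pow_mul,
      pow_mul, hζ.pow_eq_one, one_pow, one_pow, star_one, one_mul]
  rw [geom_sum_eq hw1, hwN, sub_self, zero_div]

theorem prim (N : ℕ) (hN : 0 < N) :
    IsPrimitiveRoot ((Circle.exp (2 * Real.pi / N) : Circle) : ℂ) N := by
  have h1 := Complex.isPrimitiveRoot_exp N hN.ne'
  have h2 : ((Circle.exp (2 * Real.pi / N) : Circle) : ℂ) =
      Complex.exp (2 * Real.pi * Complex.I / N) := by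
    rw [Circle.coe_exp]
    congr 1
    push_cast
    ring
  rw [h2]
  exact h1

theorem fix : S_FIX := by
  intro B _ θ s L _ ι hd γ hγ
  constructor
  · intro i a ha z
    rw [hγ z i a]
    congr 1
    ext x y
    rw [Mt.of_apply]
    by_cases h : s.wt i x = s.wt i y
    · rw [h]
      have h2 : ((z : ℂ)) * star (z : ℂ) = 1 := by
        have h3 : (z : ℂ) * (starRingEnd ℂ) (z : ℂ) = 1 := by
          rw [Complex.mul_conj, Circle.normSq_coe]
          simp
        exact h3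
      rw [star_pow, ← mul_pow, h2, one_pow, one_smul]
    · rw [ha x y h, smul_zero]
  · intro b hb
    rw [Metric.mem_closure_iff]
    intro ε hε
    obtain ⟨c, hc, hbc⟩ := Metric.mem_closure_iff.1 (hd b) ε hε
    obtain ⟨i, hi⟩ := Set.mem_iUnion.1 hc
    obtain ⟨a, rfl⟩ := hi
    obtain ⟨N, hN⟩ : ∃ N : ℕ, N = (Finset.univ.sup (s.wt i)) + 1 := ⟨_, rfl⟩
    have hN0 : 0 < N := by rw [hN]; exact Nat.succ_pos _
    have hwt : ∀ x, s.wt i x < N := by
      intro x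
      rw [hN]
      exact Nat.lt_succ_of_le (Finset.le_sup (Finset.mem_univ x))
    have hζ := prim N hN0
    obtain ⟨ζ, hζ'⟩ : ∃ ζ : Circle, ζ = Circle.exp (2 * Real.pi / N) := ⟨_, rfl⟩
    rw [← hζ'] at hζ
    obtain ⟨f, hf⟩ : ∃ f : ℕ → s.A i, f = fun k => Mt.of fun x y =>
      ((((ζ ^ k : Circle) : ℂ)) ^ s.wt i x * star ((((ζ ^ k : Circle) : ℂ)) ^ s.wt i y)) • a x y :=
      ⟨_, rfl⟩
    have hfk : ∀ k, γ.act (ζ ^ k) (ι i a) = ι i (f k) := by
      intro k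
      rw [hγ (ζ ^ k) i a, hf]
    have hNc : ((N : ℂ))⁻¹ * (N : ℂ) = 1 := inv_mul_cancel₀ (Nat.cast_ne_zero.2 hN0.ne')
    refine ⟨ι i (((N : ℂ))⁻¹ • ∑ k ∈ Finset.range N, f k), ⟨i, _, ?_, rfl⟩, ?_⟩
    · intro x y hxy
      rw [Mt.smul_apply, Mt.sum_apply]
      have h1 : ∑ k ∈ Finset.range N, f k x y = (∑ k ∈ Finset.range N,
          ((((ζ ^ k : Circle) : ℂ)) ^ s.wt i x * star ((((ζ ^ k : Circle) : ℂ)) ^ s.wt i y))) •
            a x y := by
        rw [Finset.sum_smul]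
        refine Finset.sum_congr rfl fun k _ => ?_
        rw [hf]
        rfl
      rw [h1, sum_root hζ (hwt x) (hwt y) hxy, zero_smul, smul_zero]
    · have h1 : ι i (((N : ℂ))⁻¹ • ∑ k ∈ Finset.range N, f k) =
          ((N : ℂ))⁻¹ • ∑ k ∈ Finset.range N, γ.act (ζ ^ k) (ι i a) := by
        rw [map_smul, map_sum]
        congr 1
        exact Finset.sum_congr rfl fun k _ => (hfk k).symm
      have h2 : b = ((N : ℂ))⁻¹ • ∑ k ∈ Finset.range N, γ.act (ζ ^ k) b := by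
        have h3 : ∑ k ∈ Finset.range N, γ.act (ζ ^ k) b = (N : ℂ) • b := by
          rw [Finset.sum_congr rfl fun k _ => hb (ζ ^ k), Finset.sum_const, Finset.card_range,
            Nat.cast_smul_eq_nsmul]
        rw [h3, smul_smul, hNc, one_smul]
      rw [h1, dist_eq_norm]
      have h4 : b - ((N : ℂ))⁻¹ • ∑ k ∈ Finset.range N, γ.act (ζ ^ k) (ι i a) =
          ((N : ℂ))⁻¹ • ∑ k ∈ Finset.range N, γ.act (ζ ^ k) (b - ι i a) := by
        conv_lhs => rw [h2]
        rw [← smul_sub, ← Finset.sum_sub_distrib]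
        congr 1
        exact Finset.sum_congr rfl fun k _ => (map_sub _ _ _).symm
      rw [h4, norm_smul]
      have h5 : ‖∑ k ∈ Finset.range N, γ.act (ζ ^ k) (b - ι i a)‖ ≤ N * ‖b - ι i a‖ := by
        refine (norm_sum_le _ _).trans ?_
        calc ∑ k ∈ Finset.range N, ‖γ.act (ζ ^ k) (b - ι i a)‖ ≤
            ∑ _k ∈ Finset.range N, ‖b - ι i a‖ :=
              Finset.sum_le_sum fun k _ => NonUnitalStarAlgHom.norm_apply_le (γ.act (ζ ^ k)) _
          _ = N * ‖b - ι i a‖ := by rw [Finset.sum_const, Finset.card_range, nsmul_eq_mul]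
      have h6 : ‖((N : ℂ))⁻¹‖ = (N : ℝ)⁻¹ := by rw [norm_inv, Complex.norm_natCast]
      rw [h6]
      have hNr : (0 : ℝ) < N := Nat.cast_pos.2 hN0
      calc (N : ℝ)⁻¹ * ‖∑ k ∈ Finset.range N, γ.act (ζ ^ k) (b - ι i a)‖ ≤
          (N : ℝ)⁻¹ * (N * ‖b - ι i a‖) :=
            mul_le_mul_of_nonneg_left h5 (inv_nonneg.2 hNr.le)
        _ = ‖b - ι i a‖ := by rw [← mul_assoc, inv_mul_cancel₀ hNr.ne', one_mul]
        _ < ε := by rw [← dist_eq_norm]; exact hbc

end Pool.Agent.Helper56.CAR
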